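import Pool.Agent.Run7.h506.TA.Stm
import Pool.Agent.W705.TL.J1

/-!
Project TA (helper506), piece J1: the motion before the crossing, with the larger errors of `Sys2`.
The proof is that of `Pool/Agent/W705/TL/J1.lean`.
-/

set_option autoImplicit false

namespace Pool.Agent.Run7.h623.TA

open Set Filter Topology Pool.Agent.W774.TL Pool.Agent.Run7.h506.TA
open Pool.Agent.W705.TL.J1 (boot S_le S_small S_big Co_near sg_nonneg sg_le exp_small point)

theorem t_J1 : S_J1 := by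
  refine ⟨1000000000, fun A hA9 a p a' p' hS ha0 hp0 => ?_⟩
  have hApos : 0 < A := by linarith
  have hder : ∀ τ ∈ Icc (-1 / 2 : ℝ) (-1 / 500), |a τ - a (-1 / 2)| ≤ 1 / 50000 →
      |p τ - p (-1 / 2) - A * (τ + 1 / 2)| ≤ A / 50000 →
      |a' τ| ≤ 1 / 50000 ∧ |p' τ - A| ≤ 3 * A / 100000 := by
    intro τ hτ h1 h2
    obtain ⟨hR, ha, hy⟩ := point A τ (a τ) (p τ) _ _ hApos hτ.1 hτ.2 ha0 hp0 h1 h2
    obtain ⟨-, -, h3⟩ := hS τ hτ
    obtain ⟨h4, h5⟩ := h3 (Or.inl hR)
    have hs0 := sg_nonneg (yy A τ (a τ) (p τ))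
    have hs1 : sg (yy A τ (a τ) (p τ)) ≤ 1 / 1000000 :=
      (sg_le _).trans (exp_small A hA9 _ hy)
    generalize sg (yy A τ (a τ) (p τ)) = s at h4 h5 hs0 hs1
    norm_num at h4 h5
    have hC1 := Co_near (a τ) ha
    have hC2 : |Co (a τ - τ)| ≤ 1 := Real.abs_cos_le_one _
    have hC3 : |Co (a τ)| ≤ 1 := Real.abs_cos_le_one _
    constructor
    · rw [abs_le] at h4 ⊢
      constructor <;> linarith
    · rw [abs_le] at h5 hC1 hC2 hC3 ⊢
      have h6 : |s * (3 * Co (a τ - τ) - Co (a τ))| ≤ 4 / 1000000 := by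
        rw [abs_mul, abs_of_nonneg hs0]
        have h7 : |3 * Co (a τ - τ) - Co (a τ)| ≤ 4 := by
          rw [abs_le]
          constructor <;> linarith
        calc s * |3 * Co (a τ - τ) - Co (a τ)| ≤ 1 / 1000000 * 4 :=
              mul_le_mul hs1 h7 (abs_nonneg _) (by norm_num)
          _ = 4 / 1000000 := by norm_num
      rw [abs_le] at h6
      have h8 : (1 - s) * Co (a τ) + 3 * s * Co (a τ - τ) =
          1 + (Co (a τ) - 1) + s * (3 * Co (a τ - τ) - Co (a τ)) := by ring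
      rw [h8] at h5
      have h9 : A * (s * (3 * Co (a τ - τ) - Co (a τ))) ≤ A * (4 / 1000000) :=
        mul_le_mul_of_nonneg_left h6.2 hApos.le
      have h10 : A * (-(4 / 1000000)) ≤ A * (s * (3 * Co (a τ - τ) - Co (a τ))) :=
        mul_le_mul_of_nonneg_left h6.1 hApos.le
      have h11 : A * (Co (a τ) - 1) ≤ A * (21 / 1000000) :=
        mul_le_mul_of_nonneg_left hC1.2 hApos.le
      have h12 : A * (-(21 / 1000000)) ≤ A * (Co (a τ) - 1) :=
        mul_le_mul_of_nonneg_left hC1.1 hApos.le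
      rw [mul_add, mul_add, mul_one] at h5
      constructor <;> linarith
  -- bootstrap
  have hac : ContinuousOn a (Icc (-1 / 2 : ℝ) (-1 / 500)) := fun τ hτ =>
    (hS τ hτ).1.continuousAt.continuousWithinAt
  have hpc : ContinuousOn p (Icc (-1 / 2 : ℝ) (-1 / 500)) := fun τ hτ =>
    (hS τ hτ).2.1.continuousAt.continuousWithinAt
  have hgc : ContinuousOn (fun τ => max (A * |a τ - a (-1 / 2)|)
      |p τ - p (-1 / 2) - A * (τ + 1 / 2)|) (Icc (-1 / 2 : ℝ) (-1 / 500)) := by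
    apply ContinuousOn.sup
    · exact continuousOn_const.mul (hac.sub continuousOn_const).abs
    · exact ((hpc.sub continuousOn_const).sub (by fun_prop)).abs
  have hB := boot _ (-1 / 2) (-1 / 500) (A / 50000) hgc (by
    intro τ hτ hσ
    have hσ2 : ∀ σ ∈ Ico (-1 / 2 : ℝ) τ, |a' σ| ≤ 1 / 50000 ∧ |p' σ - A| ≤ 3 * A / 100000 := by
      intro σ hσ1
      have h1 := max_lt_iff.1 (hσ σ hσ1)
      refine hder σ ⟨hσ1.1, hσ1.2.le.trans hτ.2⟩ ?_ h1.2.le
      have h2 : A * |a σ - a (-1 / 2)| < A * (1 / 50000) := by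
        have := h1.1
        linarith
      exact (lt_of_mul_lt_mul_left h2 hApos.le).le
    have hτl : τ ∈ Icc (-1 / 2 : ℝ) τ := ⟨hτ.1, le_rfl⟩
    have h3 := norm_image_sub_le_of_norm_deriv_le_segment' (f := a) (f' := a')
      (C := 1 / 50000) (a := -1 / 2) (b := τ)
      (fun x hx => (hS x ⟨hx.1, hx.2.trans hτ.2⟩).1.hasDerivWithinAt)
      (fun x hx => (hσ2 x hx).1) τ hτl
    have h4 := norm_image_sub_le_of_norm_deriv_le_segment' (f := fun x => p x - A * x)
      (f' := fun x => p' x - A * 1)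
      (C := 3 * A / 100000) (a := -1 / 2) (b := τ)
      (fun x hx => ((hS x ⟨hx.1, hx.2.trans hτ.2⟩).2.1.sub
        ((hasDerivAt_id x).const_mul A)).hasDerivWithinAt)
      (fun x hx => by
        rw [mul_one]
        exact (hσ2 x hx).2) τ hτl
    rw [Real.norm_eq_abs] at h3 h4
    apply max_lt
    · have h5 : |a τ - a (-1 / 2)| ≤ 1 / 100000 := by
        refine h3.trans ?_
        have := hτ.2
        linarith
      have h6 := mul_le_mul_of_nonneg_left h5 hApos.le
      linarith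
    · have h5 : p τ - p (-1 / 2) - A * (τ + 1 / 2) =
          p τ - A * τ - (p (-1 / 2) - A * (-1 / 2)) := by ring
      rw [h5]
      refine lt_of_le_of_lt h4 ?_
      have h6 := hτ.2
      have h7 : 3 * A / 100000 * (τ - -1 / 2) ≤ 3 * A / 100000 * (1 / 2) :=
        mul_le_mul_of_nonneg_left (by linarith) (by positivity)
      linarith)
  have hfin : ∀ τ ∈ Icc (-1 / 2 : ℝ) (-1 / 500), |a τ - a (-1 / 2)| ≤ 1 / 50000 ∧
      |p τ - p (-1 / 2) - A * (τ + 1 / 2)| ≤ A / 50000 := by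
    intro τ hτ
    have h1 := max_lt_iff.1 (hB τ hτ)
    refine ⟨?_, h1.2.le⟩
    have h2 : A * |a τ - a (-1 / 2)| < A * (1 / 50000) := by
      have := h1.1
      linarith
    exact (lt_of_mul_lt_mul_left h2 hApos.le).le
  have hend : (-1 / 500 : ℝ) ∈ Icc (-1 / 2 : ℝ) (-1 / 500) := ⟨by norm_num, le_rfl⟩
  refine ⟨fun τ hτ => ?_, (hfin _ hend).1, ?_⟩
  · exact (point A τ (a τ) (p τ) _ _ hApos hτ.1 hτ.2 ha0 hp0 (hfin τ hτ).1 (hfin τ hτ).2).1
  · have h1 := (hfin _ hend).2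
    have h2 : A * (-1 / 500 + 1 / 2) = A * (1 / 2 - 1 / 500) := by ring
    rwa [h2] at h1


end Pool.Agent.Run7.h623.TA
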