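import Pool.Agent.Run7.h506.TA.Stm
import Pool.Agent.W775.TL.J2

/-!
Project TA (helper506), piece J2: the crossing, with the larger errors of `Sys2`.
The proof is that of `Pool/Agent/W775/TL/J2.lean`.
-/

set_option autoImplicit false

namespace Pool.Agent.Run7.h623.TA

open Set Filter Topology Pool.Agent.W774.TL Pool.Agent.Run7.h506.TA
open Pool.Agent.W775.TL.J2 (mv sin_sub pi_sq S_bd Co_bd sg_bd S_der L_der L_neg L_pos nle nlt)

/-- normalised form of the estimates -/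
theorem norm_est {A : ℝ} (hA : 10 ^ 7 ≤ A) {a' p' s c : ℝ}
    (h1 : |a' - s| ≤ 1 / 10 ^ 9) (h2 : |p' - A * c| ≤ A / 10 ^ 9) :
    |a' - s| ≤ 1 / 10 ^ 7 ∧ |p' / A - c| ≤ 1 / 10 ^ 7 := by
  have hA0 : (10:ℝ) ^ 7 ≤ A := hA
  have hApos : 0 < A := by linarith [show (0:ℝ) < 10 ^ 7 by norm_num]
  constructor
  · exact h1.trans (by norm_num)
  · have h3 : p' / A - c = (p' - A * c) / A := by field_simp
    rw [h3, abs_div, abs_of_pos hApos, div_le_iff₀ hApos]
    refine h2.trans ?_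
    norm_num at hA ⊢
    linarith

theorem boot2 {A : ℝ} (hA : 10 ^ 7 ≤ A) (a p a' p' : ℝ → ℝ)
    (hS : Sys2 A a p a' p' (-1 / 500) (1 / 500)) (a1 Q1 : ℝ) (ha : a (-1 / 500) = a1)
    (hp : p (-1 / 500) = A * (3 / 2 - 1 / 500 + Q1)) (ha1 : |a1| ≤ 51 / 50000)
    (hQ1 : |Q1| ≤ 51 / 50000) :
    ∀ τ ∈ Icc (-1 / 500 : ℝ) (1 / 500), R1 A τ (a τ) (p τ) := by
  have hA0 : (10:ℝ) ^ 7 ≤ A := hA
  have hApos : 0 < A := by linarith [show (0:ℝ) < 10 ^ 7 by norm_num]
  have hp0 : p (-1 / 500) / A = 3 / 2 - 1 / 500 + Q1 := by rw [hp]; field_simp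
  -- closeness gives R1
  have close : ∀ τ ∈ Icc (-1 / 500 : ℝ) (1 / 500), |a τ - a1| ≤ 101 / 100 * (τ + 1 / 500) →
      |p τ / A - (3 / 2 - 1 / 500 + Q1)| ≤ 31 / 10 * (τ + 1 / 500) → R1 A τ (a τ) (p τ) := by
    intro τ hτ h1 h2
    have e1 := abs_le.1 h1
    have e2 := abs_le.1 h2
    have e3 := abs_le.1 ha1
    have e4 := abs_le.1 hQ1
    refine ⟨by linarith [hτ.1], by linarith [hτ.2], ?_, ?_⟩
    · rw [abs_le]; constructor <;> linarith [hτ.1, hτ.2]
    · have h3 : |p τ / A - (3 / 2 + τ)| ≤ 1 / 50 := by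
        rw [abs_le]; constructor <;> linarith [hτ.1, hτ.2]
      have h4 : p τ - A * (3 / 2 + τ) = A * (p τ / A - (3 / 2 + τ)) := by field_simp
      rw [h4, abs_mul, abs_of_pos hApos]
      calc A * |p τ / A - (3 / 2 + τ)| ≤ A * (1 / 50) := by gcongr
        _ = A / 50 := by ring
  have main := image_norm_le_of_norm_deriv_right_lt_deriv_boundary
    (f := fun τ => ((a τ - a1) / (101 / 100), (p τ / A - (3 / 2 - 1 / 500 + Q1)) / (31 / 10)))
    (f' := fun τ => (a' τ / (101 / 100), (p' τ / A) / (31 / 10)))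
    (a := -1 / 500) (b := 1 / 500) (B := fun τ => τ + 1 / 500) (B' := fun _ => 1)
    (by
      intro τ hτ
      have h1 := (hS τ hτ).1
      have h2 := (hS τ hτ).2.1
      exact (((h1.sub_const a1).div_const _).continuousAt.prodMk
        ((((h2.div_const A).sub_const _).div_const _).continuousAt)).continuousWithinAt)
    (by
      intro τ hτ
      have hτ' : τ ∈ Icc (-1 / 500 : ℝ) (1 / 500) := ⟨hτ.1, hτ.2.le⟩
      have h1 := (hS τ hτ').1
      have h2 := (hS τ hτ').2.1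
      exact (((h1.sub_const a1).div_const _).prodMk
        (((h2.div_const A).sub_const _).div_const _)).hasDerivWithinAt)
    (by simp only [ha, hp0]; norm_num)
    (by intro x; simpa using (hasDerivAt_id x).add_const (1 / 500 : ℝ))
    (by
      intro τ hτ heq
      have hτ' : τ ∈ Icc (-1 / 500 : ℝ) (1 / 500) := ⟨hτ.1, hτ.2.le⟩
      have hle := heq.le
      rw [Prod.norm_def] at hle
      have hle1 := nle (by norm_num) ((le_max_left _ _).trans hle)
      have hle2 := nle (by norm_num) ((le_max_right _ _).trans hle)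
      have hR := close τ hτ' hle1 hle2
      obtain ⟨h1, h2⟩ := (hS τ hτ').2.2 (Or.inl hR)
      have h2' : |p' τ - A * ((1 - sg (yy A τ (a τ) (p τ))) * Co (a τ)
        + 3 * sg (yy A τ (a τ) (p τ)) * Co (a τ - τ))| ≤ A / 10 ^ 9 := h2
      obtain ⟨k1, k2⟩ := norm_est hA h1 h2'
      obtain ⟨s1, s2⟩ := sg_bd (yy A τ (a τ) (p τ))
      set s := sg (yy A τ (a τ) (p τ)) with hs
      have c1 : |Co (a τ)| ≤ 1 := Real.abs_cos_le_one _
      have c2 : |Co (a τ - τ)| ≤ 1 := Real.abs_cos_le_one _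
      have e1 := abs_le.1 c1
      have e2 := abs_le.1 c2
      have k1' := abs_le.1 k1
      have k2' := abs_le.1 k2
      rw [Prod.norm_def, max_lt_iff]
      constructor
      · refine nlt (by norm_num) ?_
        rw [abs_lt]; constructor <;> linarith
      · have f1 : |(1 - s) * Co (a τ) + 3 * s * Co (a τ - τ)| ≤ 3 := by
          rw [abs_le]; constructor <;> nlinarith
        have f2 := abs_le.1 f1
        refine nlt (by norm_num) ?_
        rw [abs_lt]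
        constructor <;> linarith)
  intro τ hτ
  have hle := main hτ
  rw [Prod.norm_def] at hle
  exact close τ hτ (nle (by norm_num) ((le_max_left _ _).trans hle))
    (nle (by norm_num) ((le_max_right _ _).trans hle))

theorem t_J2 : S_J2 := by
  refine ⟨10 ^ 7, ?_⟩
  intro A hA a p a' p' hS a1 Q1 ha hp ha1 hQ1
  have hR := boot2 hA a p a' p' hS a1 Q1 ha hp ha1 hQ1
  refine ⟨hR, ?_⟩
  have hA0 : (10:ℝ) ^ 7 ≤ A := hA
  have hApos : 0 < A := by linarith [show (0:ℝ) < 10 ^ 7 by norm_num]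
  have hAi : 1 / A ≤ 1 / 10 ^ 7 := one_div_le_one_div_of_le (by norm_num) hA0
  have hAi0 : 0 < 1 / A := by positivity
  have hp0 : p (-1 / 500) / A = 3 / 2 - 1 / 500 + Q1 := by rw [hp]; field_simp
  set s : ℝ → ℝ := fun τ => sg (yy A τ (a τ) (p τ)) with hs
  have hs01 : ∀ τ, 0 ≤ s τ ∧ s τ ≤ 1 := fun τ => sg_bd _
  -- derivative estimates everywhere
  have dest : ∀ τ ∈ Icc (-1 / 500 : ℝ) (1 / 500), |a' τ - s τ| ≤ 1 / 10 ^ 7 ∧
      |p' τ / A - ((1 - s τ) * Co (a τ) + 3 * s τ * Co (a τ - τ))| ≤ 1 / 10 ^ 7 := by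
    intro τ hτ
    obtain ⟨h1, h2⟩ := (hS τ hτ).2.2 (Or.inl (hR τ hτ))
    exact norm_est hA h1 h2
  have e3 := abs_le.1 ha1
  have e4 := abs_le.1 hQ1
  -- position
  have pos1 : ∀ τ ∈ Icc (-1 / 500 : ℝ) (1 / 500),
      |(a τ - τ / 2) - (a (-1 / 500) - (-1 / 500) / 2)| ≤ (1 / 2 + 1 / 10 ^ 7) * (τ - (-1 / 500)) := by
    apply mv (f := fun τ => a τ - τ / 2) (f' := fun τ => a' τ - 1 / 2)
    · intro τ hτ
      exact (hS τ hτ).1.sub ((hasDerivAt_id τ).div_const 2)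
    · intro τ hτ
      have h1 := abs_le.1 (dest τ hτ).1
      have h2 := hs01 τ
      rw [abs_le]; constructor <;> linarith
  have posA : ∀ τ ∈ Icc (-1 / 500 : ℝ) (1 / 500), |a τ| ≤ 503 / 100000 ∧ |a τ - τ| ≤ 31 / 10000 := by
    intro τ hτ
    have h1 := abs_le.1 (pos1 τ hτ)
    rw [ha] at h1
    obtain ⟨t1, t2⟩ := hτ
    norm_num at h1
    constructor <;> rw [abs_le] <;> constructor <;> linarith
  have coA : ∀ τ ∈ Icc (-1 / 500 : ℝ) (1 / 500), 0 ≤ 1 - Co (a τ) ∧ 1 - Co (a τ) ≤ 507 / 10 ^ 6 ∧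
      0 ≤ 1 - Co (a τ - τ) ∧ 1 - Co (a τ - τ) ≤ 193 / 10 ^ 6 := by
    intro τ hτ
    obtain ⟨h1, h2⟩ := posA τ hτ
    obtain ⟨c1, c2⟩ := Co_bd (a τ)
    obtain ⟨c3, c4⟩ := Co_bd (a τ - τ)
    have h1' := sq_le_sq' (abs_le.1 h1).1 (abs_le.1 h1).2
    have h2' := sq_le_sq' (abs_le.1 h2).1 (abs_le.1 h2).2
    refine ⟨c1, ?_, c3, ?_⟩
    · norm_num at h1' ⊢; linarith
    · norm_num at h2' ⊢; linarith
  -- F1
  have hF1 : ∀ τ ∈ Icc (-1 / 500 : ℝ) (1 / 500),
      |(p τ / A - 2 * a τ - τ) - (p (-1 / 500) / A - 2 * a (-1 / 500) - (-1 / 500))|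
        ≤ (581 / 10 ^ 6) * (τ - (-1 / 500)) := by
    apply mv (f := fun τ => p τ / A - 2 * a τ - τ) (f' := fun τ => p' τ / A - 2 * a' τ - 1)
    · intro τ hτ
      exact (((hS τ hτ).2.1.div_const A).sub ((hS τ hτ).1.const_mul 2)).sub (hasDerivAt_id τ)
    · intro τ hτ
      have h1 := abs_le.1 (dest τ hτ).1
      have h2 := abs_le.1 (dest τ hτ).2
      obtain ⟨s0, s1⟩ := hs01 τ
      obtain ⟨c1, c2, c3, c4⟩ := coA τ hτ
      have m1 : 0 ≤ (1 - s τ) * (1 - Co (a τ)) := mul_nonneg (by linarith) c1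
      have m2 : 0 ≤ s τ * (1 - Co (a τ - τ)) := mul_nonneg s0 c3
      have m3 : 0 ≤ (1 - s τ) * (507 / 10 ^ 6 - (1 - Co (a τ))) :=
        mul_nonneg (by linarith) (by linarith)
      have m4 : 0 ≤ s τ * (193 / 10 ^ 6 - (1 - Co (a τ - τ))) :=
        mul_nonneg s0 (by linarith)
      norm_num at m3 m4 h1 h2 ⊢
      rw [abs_le]; constructor <;> nlinarith
  -- F2
  set Y : ℝ → ℝ := fun τ => p τ / A - (3 / 2 + 3 * S (a τ - τ) - S (a τ)) with hY
  have hyy : ∀ τ, yy A τ (a τ) (p τ) = A * Y τ := by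
    intro τ; simp only [hY, yy]; field_simp
  have hYd : ∀ τ ∈ Icc (-1 / 500 : ℝ) (1 / 500), HasDerivAt Y
      (p' τ / A - (3 * (Co (a τ - τ) * (a' τ - 1)) - Co (a τ) * a' τ)) τ := by
    intro τ hτ
    have d1 := (hS τ hτ).1
    have d2 := (hS τ hτ).2.1.div_const A
    have d3' : HasDerivAt (fun τ => a τ - τ) (a' τ - 1) τ := d1.sub (hasDerivAt_id τ)
    have d3 : HasDerivAt (fun τ => S (a τ - τ)) (Co (a τ - τ) * (a' τ - 1)) τ :=
      HasDerivAt.comp (h₂ := S) (h := fun τ => a τ - τ) τ (S_der (a τ - τ)) d3'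
    have d4 : HasDerivAt (fun τ => S (a τ)) (Co (a τ) * a' τ) τ :=
      HasDerivAt.comp (h₂ := S) (h := a) τ (S_der (a τ)) d1
    have d5 := d2.sub (((d3.const_mul 3).const_add (3 / 2)).sub d4)
    exact d5
  have hYb : ∀ τ ∈ Icc (-1 / 500 : ℝ) (1 / 500),
      |(p' τ / A - (3 * (Co (a τ - τ) * (a' τ - 1)) - Co (a τ) * a' τ)) - 4| ≤ 11 / 10 ^ 4 := by
    intro τ hτ
    have h1 := abs_le.1 (dest τ hτ).1
    have h2 := abs_le.1 (dest τ hτ).2
    obtain ⟨s0, s1⟩ := hs01 τ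
    obtain ⟨c1, c2, c3, c4⟩ := coA τ hτ
    set u := 1 - Co (a τ) with hu
    set v := 1 - Co (a τ - τ) with hv
    set d := a' τ - s τ with hd
    have ea : a' τ = s τ + d := by rw [hd]; ring
    have eC : Co (a τ) = 1 - u := by rw [hu]; ring
    have eD : Co (a τ - τ) = 1 - v := by rw [hv]; ring
    rw [eC, eD] at h2 ⊢
    rw [ea]
    have id1 : p' τ / A - (3 * ((1 - v) * (s τ + d - 1)) - (1 - u) * (s τ + d)) - 4 =
        (p' τ / A - ((1 - s τ) * (1 - u) + 3 * s τ * (1 - v))) - u * (1 + d) - 3 * v * (1 - d)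
          - 2 * d := by ring
    rw [id1]
    have q1 : |u * (1 + d)| ≤ 508 / 10 ^ 6 := by
      rw [abs_le]; constructor
      · have : 0 ≤ u * (1 + d) := mul_nonneg c1 (by norm_num at h1; linarith)
        linarith [show (0:ℝ) ≤ 508 / 10 ^ 6 by norm_num]
      · norm_num at h1 c2 ⊢; nlinarith
    have q2 : |v * (1 - d)| ≤ 194 / 10 ^ 6 := by
      rw [abs_le]; constructor
      · have : 0 ≤ v * (1 - d) := mul_nonneg c3 (by norm_num at h1; linarith)
        linarith [show (0:ℝ) ≤ 194 / 10 ^ 6 by norm_num]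
      · norm_num at h1 c4 ⊢; nlinarith
    have q1' := abs_le.1 q1
    have q2' := abs_le.1 q2
    norm_num at h1 h2 q1' q2' ⊢
    rw [abs_le]; constructor <;> linarith
  have hF2 : ∀ τ ∈ Icc (-1 / 500 : ℝ) (1 / 500),
      |(4 * a τ - Real.log (1 + Real.exp (A * Y τ)) / A) -
        (4 * a (-1 / 500) - Real.log (1 + Real.exp (A * Y (-1 / 500))) / A)|
        ≤ (111 / 10 ^ 5) * (τ - (-1 / 500)) := by
    apply mv (f := fun τ => 4 * a τ - Real.log (1 + Real.exp (A * Y τ)) / A)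
      (f' := fun τ => 4 * a' τ -
        s τ * (A * (p' τ / A - (3 * (Co (a τ - τ) * (a' τ - 1)) - Co (a τ) * a' τ))) / A)
    · intro τ hτ
      have d1 := (hS τ hτ).1.const_mul 4
      have d2 := (L_der (A * Y τ)).comp τ ((hYd τ hτ).const_mul A)
      rw [← hyy τ] at d2
      exact d1.sub (d2.div_const A)
    · intro τ hτ
      have h1 := abs_le.1 (dest τ hτ).1
      have h3 := abs_le.1 (hYb τ hτ)
      obtain ⟨s0, s1⟩ := hs01 τ
      set W := p' τ / A - (3 * (Co (a τ - τ) * (a' τ - 1)) - Co (a τ) * a' τ) with hW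
      have id2 : 4 * a' τ - s τ * (A * W) / A = 4 * (a' τ - s τ) - s τ * (W - 4) := by
        field_simp; ring
      rw [id2]
      have m1 : |s τ * (W - 4)| ≤ 11 / 10 ^ 4 := by
        rw [abs_mul, abs_of_nonneg s0]
        calc s τ * |W - 4| ≤ 1 * (11 / 10 ^ 4) := by
              apply mul_le_mul s1 (hYb τ hτ) (abs_nonneg _) (by norm_num)
          _ = _ := by ring
      have m2 := abs_le.1 m1
      norm_num at h1 m2 ⊢
      rw [abs_le]; constructor <;> linarith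
  have hYm : ∀ τ ∈ Icc (-1 / 500 : ℝ) (1 / 500),
      |(Y τ - 4 * τ) - (Y (-1 / 500) - 4 * (-1 / 500))| ≤ (11 / 10 ^ 4) * (τ - (-1 / 500)) := by
    apply mv (f := fun τ => Y τ - 4 * τ)
      (f' := fun τ => (p' τ / A - (3 * (Co (a τ - τ) * (a' τ - 1)) - Co (a τ) * a' τ)) - 4)
    · intro τ hτ
      have h4 : HasDerivAt (fun y : ℝ => 4 * y) 4 τ := by
        simpa using (hasDerivAt_id τ).const_mul 4
      exact (hYd τ hτ).sub h4
    · exact hYb
  -- endpoints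
  have mem0 : (-1 / 500 : ℝ) ∈ Icc (-1 / 500 : ℝ) (1 / 500) := ⟨le_refl _, by norm_num⟩
  have mem1 : (1 / 500 : ℝ) ∈ Icc (-1 / 500 : ℝ) (1 / 500) := ⟨by norm_num, le_refl _⟩
  have cube : ∀ {u U : ℝ}, |u| ≤ U → U ≤ 1 / 100 → |S u - u| ≤ 10 * U ^ 3 := by
    intro u U h1 h2
    refine (S_bd (h1.trans h2)).trans ?_
    have := abs_nonneg u
    gcongr
  have yl : |Y (-1 / 500) - (-4 / 500 - 2 * a1 + Q1)| ≤ 1 / 10 ^ 6 := by
    have b1 := abs_le.1 (cube (u := a1 - (-1 / 500)) (U := 31 / 10000)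
      (by rw [abs_le]; constructor <;> linarith) (by norm_num))
    have b2 := abs_le.1 (cube (u := a1) (U := 51 / 50000) ha1 (by norm_num))
    simp only [hY, ha, hp0]
    norm_num at b1 b2 ⊢
    rw [abs_le]; constructor <;> linarith
  have yl' := abs_le.1 yl
  have ym' := abs_le.1 (hYm _ mem1)
  have ylneg : Y (-1 / 500) ≤ 0 := by norm_num at yl' ⊢; linarith
  have yrpos : 0 ≤ Y (1 / 500) := by norm_num at yl' ym' ⊢; linarith
  have l1 := L_neg (y := A * Y (-1 / 500)) (mul_nonpos_of_nonneg_of_nonpos hApos.le ylneg)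
  have l2 := L_pos (y := A * Y (1 / 500)) (mul_nonneg hApos.le yrpos)
  have l1' : 0 ≤ Real.log (1 + Real.exp (A * Y (-1 / 500))) / A ∧
      Real.log (1 + Real.exp (A * Y (-1 / 500))) / A ≤ 1 / 10 ^ 7 := by
    constructor
    · exact div_nonneg l1.1 hApos.le
    · refine le_trans ?_ hAi
      exact div_le_div_of_nonneg_right l1.2 hApos.le
  have l2' : 0 ≤ Real.log (1 + Real.exp (A * Y (1 / 500))) / A - Y (1 / 500) ∧
      Real.log (1 + Real.exp (A * Y (1 / 500))) / A - Y (1 / 500) ≤ 1 / 10 ^ 7 := by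
    have id3 : Real.log (1 + Real.exp (A * Y (1 / 500))) / A - Y (1 / 500) =
        (Real.log (1 + Real.exp (A * Y (1 / 500))) - A * Y (1 / 500)) / A := by field_simp
    rw [id3]
    constructor
    · exact div_nonneg l2.1 hApos.le
    · refine le_trans ?_ hAi
      exact div_le_div_of_nonneg_right l2.2 hApos.le
  have f2 := abs_le.1 (hF2 _ mem1)
  have f1 := abs_le.1 (hF1 _ mem1)
  obtain ⟨pa1, pa2⟩ := posA _ mem1
  have b1 := abs_le.1 (cube (u := a (1 / 500) - 1 / 500) (U := 31 / 10000) pa2 (by norm_num))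
  have b2 := abs_le.1 (cube (u := a (1 / 500)) (U := 503 / 100000) pa1 (by norm_num))
  have hYr : Y (1 / 500) = p (1 / 500) / A -
      (3 / 2 + 3 * S (a (1 / 500) - 1 / 500) - S (a (1 / 500))) := rfl
  rw [ha, hp0] at f1
  rw [ha] at f2
  norm_num at f1 f2 l1' l2' b1 b2
  have fin1 : |a (1 / 500) - 1 / 500 - (2 * a1 + Q1) / 4| ≤ 4 / 10 ^ 6 := by
    norm_num
    rw [abs_le]; constructor <;> linarith
  have fin1' := abs_le.1 fin1
  refine ⟨?_, ?_⟩
  · refine fin1.trans (by norm_num)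
  · have h3 : |p (1 / 500) / A - (3 / 2 + 3 / 500 + (3 / 2 * Q1 - a1))| ≤ 1 / 50000 := by
      norm_num at fin1' ⊢
      rw [abs_le]; constructor <;> linarith
    have h4 : p (1 / 500) - A * (3 / 2 + 3 / 500 + (3 / 2 * Q1 - a1)) =
        A * (p (1 / 500) / A - (3 / 2 + 3 / 500 + (3 / 2 * Q1 - a1))) := by field_simp
    rw [h4, abs_mul, abs_of_pos hApos]
    calc A * |p (1 / 500) / A - (3 / 2 + 3 / 500 + (3 / 2 * Q1 - a1))| ≤ A * (1 / 50000) := by
          gcongr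
      _ = A / 50000 := by ring


end Pool.Agent.Run7.h623.TA
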